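import Pool.Agent.Lib.MP_3a2c26_co.EccEig

set_option autoImplicit false

namespace Pool.Agent.Results.MP_3a2c26_co.Eccentricity

open Pool.Agent.Lib.MP_3a2c26_co

/-- The eigenvalues are listed in decreasing order, so `i = n - 2` gives `λ₂(G)`; `s` is half
the number of vertices of eccentricity at least `3`. -/
theorem result (n : ℕ) (G : SimpleGraph (Fin n)) [DecidableRel G.Adj] (s : ℝ)
    (hs : s = (Set.ncard {v | 3 ≤ G.eccent v} : ℝ) / 2)
    (i : Fin (Fintype.card (Fin n))) (hi : i.val + 2 = n) :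
    (n - s + 1 - √((n - s + 1) ^ 2 - 4 * (n - 2 * s))) / 2 ≤
      (G.isHermitian_lapMatrix ℝ).eigenvalues₀ i := by
  have s0 : 0 ≤ s := by rw [hs]; positivity
  have key : ∀ x : ℝ, x ^ 2 - (n - s + 1) * x + (n - 2 * s) ≤ 0 →
      (n - s + 1 - √((n - s + 1) ^ 2 - 4 * (n - 2 * s))) / 2 ≤ x := fun x hx => by
    have := Real.le_sqrt_of_sq_le (x := n - s + 1 - 2 * x)
      (y := (n - s + 1) ^ 2 - 4 * (n - 2 * s)) (by linarith)
    linarith
  rcases lt_or_ge ((G.isHermitian_lapMatrix ℝ).eigenvalues₀ i) 1 with h | h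
  · have h1 := (ecc_poly G i hi rfl h).2
    rw [show (Set.ncard {v | 3 ≤ G.eccent v} : ℝ) = 2 * s by linarith] at h1
    exact key _ (by linarith)
  · exact (key 1 (by linarith)).trans h

/-- The consequence for a simple graph and its complement. -/
theorem pair (n : ℕ) (G : SimpleGraph (Fin n)) [DecidableRel G.Adj]
    (i : Fin (Fintype.card (Fin n))) (hi : i.val + 2 = n) (x y : ℝ)
    (hx : x = (G.isHermitian_lapMatrix ℝ).eigenvalues₀ i)
    (hy : y = ((G)ᶜ.isHermitian_lapMatrix ℝ).eigenvalues₀ i) (hx1 : x < 1) (hy1 : y < 1) :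
    (n : ℝ) ≤ 2 * (x + y) + (n - 2) * (x / (2 - x) + y / (2 - y)) := by
  have h1 := (ecc_poly G i hi hx hx1).2
  have h2 := (ecc_poly Gᶜ i hi hy hy1).2
  have h3 : Set.ncard {v | 3 ≤ G.eccent v} + Set.ncard {v | 3 ≤ Gᶜ.eccent v} ≤ n := by
    have hd : Disjoint {v | 3 ≤ G.eccent v} {v | 3 ≤ Gᶜ.eccent v} :=
      Set.disjoint_left.2 fun v => ecc_compl G v
    rw [← Set.ncard_union_eq hd]
    exact (Set.ncard_le_card _).trans (by simp)
  have h4 : (Set.ncard {v | 3 ≤ G.eccent v} : ℝ) + Set.ncard {v | 3 ≤ Gᶜ.eccent v} ≤ n := by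
    exact_mod_cast h3
  have key : ∀ z m : ℝ, z < 1 → m * (2 - z) ≤ z * (n + 2 - 2 * z) →
      m ≤ 2 * z + (n - 2) * (z / (2 - z)) := fun z m hz h => by
    rw [← mul_div_assoc, ← sub_le_iff_le_add', le_div_iff₀ (by linarith)]
    linarith
  linarith [key _ _ hx1 h1, key _ _ hy1 h2]

end Pool.Agent.Results.MP_3a2c26_co.Eccentricity
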