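import Pool.Agent.Lib.MP_3a2c26_co.Hi3
import Pool.Agent.Lib.MP_3a2c26_co.HiEig

set_option autoImplicit false

namespace Pool.Agent.Results.MP_3a2c26_co.HigherLargeN

open Pool.Agent.Lib.MP_3a2c26_co

/-- The eigenvalues are listed in decreasing order, so the index `n - 1 - k` is `λ_{k+1}`:
`k λ_{k+1}(G) + l λ_{l+1}(Gᶜ) ≥ k l` for every `[0,1]`-weighted graph with many vertices. -/
theorem result (n k l : ℕ) (hk : 1 ≤ k) (hl : 1 ≤ l) (hn : 2 ^ 27 * max k l ^ 13 ≤ n)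
    (w : Fin n → Fin n → ℝ) (hw : ∀ i j, w i j = w j i) (h01 : ∀ i j, 0 ≤ w i j ∧ w i j ≤ 1)
    (h : (lap w).IsHermitian) (h' : (lap fun i j => 1 - w i j).IsHermitian)
    (p q : Fin (Fintype.card (Fin n))) (hp : p.val + k + 1 = n) (hq : q.val + l + 1 = n) :
    (k : ℝ) * l ≤ k * h.eigenvalues₀ p + l * h'.eigenvalues₀ q := by
  have hc : ∀ (m : Fin (Fintype.card (Fin n))) (j : ℕ), m.val + j + 1 = n →
      (Finset.Ici m).card = j + 1 := fun m j hm => by
    have := Fintype.card_fin n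
    rw [Fin.card_Ici]
    omega
  obtain ⟨u, hu, hu', e1⟩ := hi_frame w hw (fun i j => (h01 i j).1) h k _ (hc p k hp) _
    fun _ a => h.eigenvalues₀_antitone (Finset.mem_Ici.1 a)
  obtain ⟨v, hv, hv', e2⟩ := hi_frame (fun i j => 1 - w i j) (fun i j => by rw [hw])
    (fun i j => sub_nonneg.2 (h01 i j).2) h' l _ (hc q l hq) _
    fun _ a => h'.eigenvalues₀_antitone (Finset.mem_Ici.1 a)
  exact hi_main (K := (max k l : ℕ)) hk hl (by exact_mod_cast le_max_left k l)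
    (by exact_mod_cast le_max_right k l) u v hu hu' e1 hv hv' e2 hw (fun i j => by rw [hw])
    (fun i j => (h01 i j).1) (fun i j => sub_nonneg.2 (h01 i j).2) (fun i j => by ring)
    (by rw [Fintype.card_fin]; exact_mod_cast hn)

/-- The case `k = l`: `λ_{k+1}(G) + λ_{k+1}(Gᶜ) ≥ k`. -/
theorem equal_index (n k : ℕ) (hk : 1 ≤ k) (hn : 2 ^ 27 * k ^ 13 ≤ n)
    (w : Fin n → Fin n → ℝ) (hw : ∀ i j, w i j = w j i) (h01 : ∀ i j, 0 ≤ w i j ∧ w i j ≤ 1)
    (h : (lap w).IsHermitian) (h' : (lap fun i j => 1 - w i j).IsHermitian)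
    (p : Fin (Fintype.card (Fin n))) (hp : p.val + k + 1 = n) :
    (k : ℝ) ≤ h.eigenvalues₀ p + h'.eigenvalues₀ p := by
  have := result n k k hk hk (by rwa [max_self]) w hw h01 h h' p p hp hp
  rw [← mul_add] at this
  exact le_of_mul_le_mul_left this (by exact_mod_cast hk)

end Pool.Agent.Results.MP_3a2c26_co.HigherLargeN
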