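import Pool.Agent.Lib.MP_3a2c26_co.Eigen

set_option autoImplicit false

namespace Pool.Agent.Results.MP_3a2c26_co.Hyperbola

open Pool.Agent.Lib.MP_3a2c26_co

/-- For every `[0,1]`-weighted graph, the Rayleigh quotients `x` for `G` and `y` for `Gᶜ` of any
vectors orthogonal to the all-ones vector satisfy `x + y - 2xy/n ≥ 1`. -/
theorem result (n : ℕ) (hn : 2 ≤ n) (w : Fin n → Fin n → ℝ) (hw : ∀ i j, w i j = w j i)
    (h01 : ∀ i j, 0 ≤ w i j ∧ w i j ≤ 1) (u v : Fin n → ℝ) (hu : ∑ i, u i = 0) (hv : ∑ i, v i = 0)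
    (hu0 : u ≠ 0) (hv0 : v ≠ 0) (x y : ℝ)
    (hx : x = (∑ i, ∑ j, w i j * (u i - u j) ^ 2) / (2 * ∑ i, u i ^ 2))
    (hy : y = (∑ i, ∑ j, (1 - w i j) * (v i - v j) ^ 2) / (2 * ∑ i, v i ^ 2)) :
    1 ≤ x + y - 2 * x * y / n := by
  have := rayleigh (by rw [Fintype.card_fin]; exact hn) w hw h01 u v hu hv hu0 hv0 x y hx hy
  rwa [Fintype.card_fin] at this

/-- The special case of the second smallest eigenvalues `x = λ₂(G)` and `y = λ₂(Gᶜ)`. -/
theorem eigenvalue_form (n : ℕ) (hn : 2 ≤ n) (w : Fin n → Fin n → ℝ) (hw : ∀ i j, w i j = w j i)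
    (h01 : ∀ i j, 0 ≤ w i j ∧ w i j ≤ 1) :
    ∃ (h : (lap w).IsHermitian) (h' : (lap fun i j => 1 - w i j).IsHermitian),
      ∀ k : Fin (Fintype.card (Fin n)), k.val + 2 = n → ∀ x y : ℝ,
        x = h.eigenvalues₀ k → y = h'.eigenvalues₀ k → 1 ≤ x + y - 2 * x * y / n := by
  refine ⟨lap_herm w hw, lap_herm _ (fun i j => by rw [hw]), ?_⟩
  rintro k hk x y rfl rfl
  exact eigen hn w hw h01 _ _ k hk

end Pool.Agent.Results.MP_3a2c26_co.Hyperbola
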