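import Pool.Agent.Lib.MP_3a2c26_co.KFSecond

set_option autoImplicit false

namespace Pool.Agent.Results.MP_3a2c26_co.SpreadLadder

open Pool.Agent.Lib.MP_3a2c26_co

/-- The eigenvalues are listed in decreasing order, so `i = n - 2` gives `λ₂(G)` and
`j = n - 1 - k` gives `λ_{k+1}(Gᶜ)`. -/
theorem result (n k : ℕ) (G : SimpleGraph (Fin n)) [DecidableRel G.Adj]
    (i j : Fin (Fintype.card (Fin n))) (hi : i.val + 2 = n) (hj : j.val + k + 1 = n) :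
    min 1 ((k : ℝ) - (G.isHermitian_lapMatrix ℝ).eigenvalues₀ i) ≤
      ((G)ᶜ.isHermitian_lapMatrix ℝ).eigenvalues₀ j :=
  KS.ladder G k i j hi hj

/-- The second largest eigenvalues: `μ₂(G) + μ₂(Gᶜ) ≤ 2n - 2`. -/
theorem second_largest (n : ℕ) (hn : 3 ≤ n) (G : SimpleGraph (Fin n)) [DecidableRel G.Adj]
    (m : Fin (Fintype.card (Fin n))) (hm : m.val = 1) :
    (G.isHermitian_lapMatrix ℝ).eigenvalues₀ m + ((G)ᶜ.isHermitian_lapMatrix ℝ).eigenvalues₀ m ≤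
      2 * n - 2 :=
  KS.second hn G m hm

/-- If `λ_{k+1}(Gᶜ) < 1` then `λ_{k+1}(G) + λ_{k+1}(Gᶜ) ≥ k`. -/
theorem sum_of_lt_one (n k : ℕ) (hk : 1 ≤ k) (G : SimpleGraph (Fin n)) [DecidableRel G.Adj]
    (j : Fin (Fintype.card (Fin n))) (hj : j.val + k + 1 = n)
    (h : ((G)ᶜ.isHermitian_lapMatrix ℝ).eigenvalues₀ j < 1) :
    (k : ℝ) ≤ (G.isHermitian_lapMatrix ℝ).eigenvalues₀ j +
      ((G)ᶜ.isHermitian_lapMatrix ℝ).eigenvalues₀ j :=
  KS.sum_of_lt_one k hk G j hj h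

/-- The form for `[0,1]`-weighted graphs: the Rayleigh quotient of one vector for `G` plus the
Laplacian forms of `l` orthonormal vectors for `Gᶜ` is at least `l`. -/
theorem weighted_sums (n l : ℕ) (w : Fin n → Fin n → ℝ) (h01 : ∀ i j, 0 ≤ w i j ∧ w i j ≤ 1)
    (u : Fin n → ℝ) (hu : ∑ i, u i = 0) (hu0 : u ≠ 0) (v : Fin l → Fin n → ℝ)
    (hv : ∀ b, ∑ i, v b i = 0) (hv' : ∀ b b', ∑ i, v b i * v b' i = if b = b' then 1 else 0) :
    (l : ℝ) ≤ (∑ i, ∑ j, w i j * (u i - u j) ^ 2) / (2 * ∑ i, u i ^ 2) +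
      ∑ b, (∑ i, ∑ j, (1 - w i j) * (v b i - v b j) ^ 2) / 2 :=
  KS.kf_main w h01 u hu hu0 v hv hv'

end Pool.Agent.Results.MP_3a2c26_co.SpreadLadder
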